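import Pool.Agent.Lib.MP_0162a5_an.Main

/-!
# Split polynomials over uniform algebras which cannot be deformed to constants

For every `n ≥ 4` there are a commutative Banach algebra `A` (a uniform algebra) whose maximal ideal
space is a cube, and elements `b i` (`i < n`) of `A` whose Gelfand transforms are pairwise different
at every point, such that the separable completely reducible polynomial `∏ (X - b i)` is not joined
to a polynomial with constant coefficients by a path of separable completely reducible polynomials
over `A`.
-/

set_option autoImplicit false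

open Metric Polynomial

namespace Pool.Agent.Results.MP_0162a5_an.UniformAlgebra

section

variable (A : Type) [NormedCommRing A] [NormedAlgebra ℂ A]

/-- The maximal ideal space of `A`, with the Gelfand topology, is homeomorphic to a cube
`[-R, R] ^ d` (the closed ball of the maximum norm). -/
def GelfandCube : Prop :=
  ∃ (d : ℕ) (R : ℝ), 0 < R ∧
    Nonempty (WeakDual.characterSpace ℂ A ≃ₜ closedBall (0 : Fin d → ℝ) R)

/-- The norm of `A` is the supremum norm of the Gelfand transform (which is attained). -/
def IsUniform : Prop := ∀ f : A, ∃ χ : WeakDual.characterSpace ℂ A, ‖χ f‖ = ‖f‖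

variable {A} {n : ℕ}

/-- The monic polynomial of degree `n` with the coefficient vector `a`. -/
noncomputable def poly (a : Fin n → A) : Polynomial A := X ^ n + ∑ i : Fin n, C (a i) * X ^ (i : ℕ)

/-- The Gelfand transforms of the elements `b i` are pairwise different at every point. -/
def DistinctValues (b : Fin n → A) : Prop :=
  ∀ i j, i ≠ j → ∀ χ : WeakDual.characterSpace ℂ A, χ (b i) ≠ χ (b j)

/-- The polynomial with the coefficient vector `a` is separable and completely reducible over `A`. -/
def SepSplit (a : Fin n → A) : Prop :=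
  ∃ c : Fin n → A, DistinctValues c ∧ poly a = ∏ i, (X - C (c i))

/-- A homotopy of separable completely reducible polynomials over `A` joins `∏ (X - b i)` to a
polynomial with constant coefficients. -/
def Deformable (b : Fin n → A) : Prop :=
  ∃ a : unitInterval → (Fin n → A), Continuous a ∧ (∀ t, SepSplit (a t)) ∧
    poly (a 0) = ∏ i, (X - C (b i)) ∧ ∀ i, ∃ z : ℂ, a 1 i = algebraMap ℂ A z

private theorem ua_separable [CompleteSpace A] (b : Fin n → A) (hb : DistinctValues b) :
    (∏ i, (X - C (b i)) : Polynomial A).Separable := by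
  apply Polynomial.separable_prod
  · intro i j hij
    apply Polynomial.isCoprime_X_sub_C_of_isUnit_sub
    by_contra hu
    obtain ⟨χ, hχ⟩ := WeakDual.CharacterSpace.exists_apply_eq_zero hu
    rw [map_sub] at hχ
    exact hb i j hij χ (sub_eq_zero.1 hχ)
  · intro i
    exact Polynomial.separable_X_sub_C

omit [NormedAlgebra ℂ A] in
private theorem ua_coeff (a : Fin n → A) (k : ℕ) :
    (poly a).coeff k = (if k = n then 1 else 0) + ∑ i : Fin n, if k = (i : ℕ) then a i else 0 := by
  unfold poly
  rw [coeff_add, coeff_X_pow, finsetSum_coeff]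
  simp only [coeff_C_mul, coeff_X_pow, mul_ite, mul_one, mul_zero]

end

theorem result : ∀ n : ℕ, 4 ≤ n → ∃ (A : Type) (_ : NormedCommRing A) (_ : NormedAlgebra ℂ A),
    CompleteSpace A ∧ IsUniform A ∧ GelfandCube A ∧
      ∃ b : Fin n → A, DistinctValues b ∧ ¬ Deformable b := by
  intro n hn
  by_contra hcon
  refine T05.not_QX ⟨n, hn, ?_⟩
  intro d k R hR e hinj S hS b hb
  by_contra hno
  have hcomp : CompleteSpace (T05.pieceAlg e) := (T05.pieceAlg_isClosed e).completeSpace_coe
  obtain ⟨φ, hφ⟩ := T05.exists_char_homeo e hinj S hS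
  apply hcon
  refine ⟨T05.pieceAlg e, inferInstance, inferInstance, hcomp, fun f => ?_, ⟨d, R, hR, ⟨φ⟩⟩, b,
    fun i j hij χ h => ?_, ?_⟩
  · have hne : Nonempty (closedBall (0 : Fin d → ℝ) R) := ⟨0, mem_closedBall_self hR.le⟩
    have hf : Continuous fun x => ‖(f : C(closedBall (0 : Fin d → ℝ) R, ℂ)) x‖ :=
      (f : C(closedBall (0 : Fin d → ℝ) R, ℂ)).continuous.norm
    obtain ⟨x, -, hx⟩ := isCompact_univ.exists_isMaxOn Set.univ_nonempty hf.continuousOn
    refine ⟨φ.symm x, ?_⟩
    rw [hφ, φ.apply_symm_apply]
    refine le_antisymm (ContinuousMap.norm_coe_le_norm _ x) ?_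
    change ‖(f : C(closedBall (0 : Fin d → ℝ) R, ℂ))‖ ≤ _
    rw [ContinuousMap.norm_le _ (norm_nonneg _)]
    intro y
    exact hx (Set.mem_univ y)
  · rw [hφ, hφ] at h
    exact hb i j hij (φ χ) h
  · rintro ⟨a, ha, hc, h0, h1⟩
    apply hno
    refine ⟨fun t => poly (a t), fun k => ?_, h0, fun t => ?_, fun k => ?_⟩
    · simp only [ua_coeff]
      refine continuous_const.add (continuous_finsetSum _ fun i _ => ?_)
      split_ifs
      · exact (continuous_apply i).comp ha
      · exact continuous_const
    · obtain ⟨c, hc1, hc2⟩ := hc t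
      refine ⟨?_, c, hc2⟩
      change (poly (a t)).Separable
      rw [hc2]
      exact ua_separable c hc1
    · choose z hz using h1
      refine ⟨(if k = n then 1 else 0) + ∑ i : Fin n, if k = (i : ℕ) then z i else 0, ?_⟩
      change (poly (a 1)).coeff k = _
      rw [ua_coeff, map_add, map_sum]
      congr 1
      · split_ifs
        · rw [map_one]
        · rw [map_zero]
      · refine Finset.sum_congr rfl fun i _ => ?_
        split_ifs
        · exact hz i
        · rw [map_zero]

end Pool.Agent.Results.MP_0162a5_an.UniformAlgebra
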